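import Mathlib

namespace Pool.Agent.Results.MP_6c2242_co.Ex

open Finset

/-- A 2-(v,k,1) design on the finite point type V. -/
def IsSteiner {V : Type} [Fintype V] (k : ℕ) (𝓑 : Finset (Finset V)) : Prop :=
  2 ≤ k ∧ k ≤ Fintype.card V ∧ (∀ B ∈ 𝓑, B.card = k) ∧
    ∀ x y : V, x ≠ y → ∃! B, B ∈ 𝓑 ∧ x ∈ B ∧ y ∈ B

def StrictlyAdditive {V : Type} (G : Type) [AddCommGroup G] (𝓑 : Finset (Finset V)) : Prop :=
  ∃ f : V ≃ G, ∀ B ∈ 𝓑, ∑ b ∈ B, f b = 0

def Regular {V : Type} (G : Type) [AddCommGroup G] (𝓑 : Finset (Finset V)) : Prop :=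
  ∃ f : V ≃ G, ∀ B ∈ 𝓑, ∀ g : G, ∃ C ∈ 𝓑, (f '' (C : Set V)) = (fun x => x + g) '' (f '' (B : Set V))

abbrev G0 := ZMod 4 × ZMod 2 × ZMod 2

def bl : List (List G0) :=
  [[(0, 0, 0), (0, 0, 1), (1, 0, 0), (3, 0, 1)],
   [(0, 0, 0), (0, 1, 0), (1, 0, 1), (3, 1, 1)],
   [(0, 0, 0), (0, 1, 1), (2, 0, 0), (2, 1, 1)],
   [(0, 0, 0), (1, 1, 0), (1, 1, 1), (2, 0, 1)],
   [(0, 0, 0), (2, 1, 0), (3, 0, 0), (3, 1, 0)],
   [(0, 0, 1), (0, 1, 0), (2, 0, 1), (2, 1, 0)],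
   [(0, 0, 1), (0, 1, 1), (1, 1, 0), (3, 0, 0)],
   [(0, 0, 1), (1, 0, 1), (1, 1, 1), (2, 1, 1)],
   [(0, 0, 1), (2, 0, 0), (3, 1, 0), (3, 1, 1)],
   [(0, 1, 0), (0, 1, 1), (1, 1, 1), (3, 1, 0)],
   [(0, 1, 0), (1, 0, 0), (1, 1, 0), (2, 0, 0)],
   [(0, 1, 0), (2, 1, 1), (3, 0, 0), (3, 0, 1)],
   [(0, 1, 1), (1, 0, 0), (1, 0, 1), (2, 1, 0)],
   [(0, 1, 1), (2, 0, 1), (3, 0, 1), (3, 1, 1)],
   [(1, 0, 0), (1, 1, 1), (3, 0, 0), (3, 1, 1)],
   [(1, 0, 0), (2, 0, 1), (2, 1, 1), (3, 1, 0)],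
   [(1, 0, 1), (1, 1, 0), (3, 0, 1), (3, 1, 0)],
   [(1, 0, 1), (2, 0, 0), (2, 0, 1), (3, 0, 0)],
   [(1, 1, 0), (2, 1, 0), (2, 1, 1), (3, 1, 1)],
   [(1, 1, 1), (2, 0, 0), (2, 1, 0), (3, 0, 1)]]

def B0 : Finset (Finset G0) := (bl.map List.toFinset).toFinset

lemma c1 : ∀ l ∈ bl, l.Nodup ∧ l.length = 4 ∧ l.sum = 0 := by decide +kernel

set_option synthInstance.maxSize 4096 in
lemma c2 : ∀ x y : G0, x ≠ y → ∃ l ∈ bl, x ∈ l ∧ y ∈ l ∧ ∀ m ∈ bl, x ∈ m → y ∈ m → m = l := by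
  decide +kernel

set_option synthInstance.maxSize 4096 in
lemma c3 : ∀ g ∈ [((1, 0, 0) : G0), (1, 1, 0)], ∀ x y : G0, [0, g, x, y].Nodup →
    (∀ t : G0, ∀ a ∈ [0, g, x, y], ∀ b ∈ [0, g, x, y], a ≠ b → a + t ∈ [0, g, x, y] →
      b + t ∈ [0, g, x, y] → ∀ c ∈ [0, g, x, y], c + t ∈ [0, g, x, y]) →
    ∀ z : G0, z ∈ [0, g, x, y] ↔ z ∈ [0, g, g + g, g + g + g] := by
  decide +kernel

lemma steiner : IsSteiner 4 B0 := by
  refine ⟨by norm_num, by simp, ?_, ?_⟩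
  · intro B hB
    simp only [B0, List.mem_toFinset, List.mem_map] at hB
    obtain ⟨l, hl, rfl⟩ := hB
    rw [List.toFinset_card_of_nodup (c1 l hl).1, (c1 l hl).2.1]
  · intro x y hxy
    obtain ⟨l, h1, h2, h3, h4⟩ := c2 x y hxy
    refine ⟨l.toFinset, ⟨?_, by simpa using h2, by simpa using h3⟩, ?_⟩
    · simp only [B0, List.mem_toFinset, List.mem_map]; exact ⟨l, h1, rfl⟩
    · rintro C ⟨hC, k1, k2⟩
      simp only [B0, List.mem_toFinset, List.mem_map] at hC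
      obtain ⟨m, hm, rfl⟩ := hC
      rw [h4 m hm (by simpa using k1) (by simpa using k2)]

lemma not_regular {V : Type} [Fintype V] (𝓑 : Finset (Finset V)) (h : IsSteiner 4 𝓑) :
    ¬ Regular G0 𝓑 := by
  classical
  rintro ⟨f, hf⟩
  obtain ⟨-, -, hc, hu⟩ := h
  have key : ∀ g ∈ [((1, 0, 0) : G0), (1, 1, 0)], ∀ B ∈ 𝓑, f.symm 0 ∈ B → f.symm g ∈ B →
      ∀ z, f.symm z ∈ B ↔ z ∈ [0, g, g + g, g + g + g] := by
    intro g hg B hB h0 h1
    have hg0 : (0 : G0) ≠ g := by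
      simp only [List.mem_cons, List.not_mem_nil, or_false] at hg
      rcases hg with rfl | rfl <;> decide
    have hcard : (((B.map f.toEmbedding).erase 0).erase g).card = 2 := by
      rw [card_erase_of_mem, card_erase_of_mem, card_map, hc B hB]
      · simpa using h0
      · rw [mem_erase]; exact ⟨hg0.symm, by simpa using h1⟩
    obtain ⟨x, y, hxy, e⟩ := card_eq_two.1 hcard
    have hx : x ∈ ((B.map f.toEmbedding).erase 0).erase g := by rw [e]; simp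
    have hy : y ∈ ((B.map f.toEmbedding).erase 0).erase g := by rw [e]; simp
    simp only [mem_erase, mem_map_equiv] at hx hy
    have mem : ∀ z, f.symm z ∈ B ↔ z ∈ [0, g, x, y] := by
      intro z
      constructor
      · intro hz
        by_cases z0 : z = 0
        · simp [z0]
        by_cases z1 : z = g
        · simp [z1]
        have : z ∈ ((B.map f.toEmbedding).erase 0).erase g := by
          simp only [mem_erase, mem_map_equiv]; exact ⟨z1, z0, hz⟩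
        rw [e] at this
        simp only [mem_insert, mem_singleton] at this
        rcases this with rfl | rfl <;> simp
      · intro hz
        simp only [List.mem_cons, List.not_mem_nil, or_false] at hz
        rcases hz with rfl | rfl | rfl | rfl
        exacts [h0, h1, hx.2.2, hy.2.2]
    intro z
    rw [mem]
    refine c3 g hg x y ?_ ?_ z
    · simp only [List.nodup_cons, List.mem_cons, List.not_mem_nil, or_false, not_or,
        List.nodup_nil, not_false_eq_true, and_true]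
      exact ⟨⟨hg0, hx.2.1.symm, hy.2.1.symm⟩, ⟨hx.1.symm, hy.1.symm⟩, hxy⟩
    · intro t a ha b hb hab hat hbt c hcm
      rw [← mem] at ha hb hat hbt hcm ⊢
      obtain ⟨C, hC, eC⟩ := hf B hB t
      have inC : ∀ w, f.symm w ∈ B → f.symm (w + t) ∈ C := by
        intro w hw
        have : w + t ∈ f '' (C : Set V) := by
          rw [eC]; exact ⟨w, ⟨f.symm w, hw, by simp⟩, rfl⟩
        obtain ⟨v, hv, ev⟩ := this
        rw [← ev]; simpa using hv
      have hne : f.symm (a + t) ≠ f.symm (b + t) := by simpa using hab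
      have : C = B := (hu _ _ hne).unique ⟨hC, inC a ha, inC b hb⟩ ⟨hB, hat, hbt⟩
      rw [← this]; exact inC c hcm
  obtain ⟨B, ⟨hB, b0, b1⟩, -⟩ := hu (f.symm 0) (f.symm (1, 0, 0)) (by simp; decide)
  obtain ⟨C, ⟨hC, d0, d1⟩, -⟩ := hu (f.symm 0) (f.symm (1, 1, 0)) (by simp; decide)
  have kB := key _ (by simp) B hB b0 b1
  have kC := key _ (by simp) C hC d0 d1
  have : B = C := (hu (f.symm 0) (f.symm (2, 0, 0)) (by simp; decide)).unique
    ⟨hB, b0, (kB _).2 (by decide)⟩ ⟨hC, d0, (kC _).2 (by decide)⟩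
  rw [← this, kB] at d1
  revert d1; decide

theorem result : ∃ (G : Type) (_ : AddCommGroup G) (_ : Finite G) (V : Type) (_ : Fintype V)
    (k : ℕ) (𝓑 : Finset (Finset V)),
    IsSteiner k 𝓑 ∧ StrictlyAdditive G 𝓑 ∧ ¬ Regular G 𝓑 := by
  refine ⟨G0, inferInstance, inferInstance, G0, inferInstance, 4, B0, steiner,
    ⟨Equiv.refl _, ?_⟩, not_regular B0 steiner⟩
  intro B hB
  simp only [B0, List.mem_toFinset, List.mem_map] at hB
  obtain ⟨l, hl, rfl⟩ := hB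
  rw [List.sum_toFinset _ (c1 l hl).1]
  simpa using (c1 l hl).2.2

end Pool.Agent.Results.MP_6c2242_co.Ex
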